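import Mathlib
import Pool.Agent.Helper2CR.Pl

/-!
The graph incidence groups of connected planar graphs, with all colourings, have complete rewriting
systems.
-/

set_option autoImplicit false

namespace Pool.Agent.Results.MP_1b5c59_al.PlanarGraphs

open Pool.Agent.Helper2GI Pool.Agent.Helper2CR

theorem result (c : Code) (hV : Valid c) (h : ConnPlanar c) :
    HasCRS (Gam c) ∧ HasCRS (Gam c ⧸ Subgroup.normalClosure {J c}) := planar_crs hV h

end Pool.Agent.Results.MP_1b5c59_al.PlanarGraphs
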